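import Pool.Agent.H47.SQ.Targets5

/-!
Renaming the variables: sums over the formulas are invariant.
-/

set_option autoImplicit false

namespace Pool.Agent.H49.PPZ

open Finset Pool.Agent.H97.RK Pool.Agent.H41.SS
open Pool.Agent.H47.PL (Sat Agr Con dm nsol Os)
open Pool.Agent.H47.SR

theorem rn_rn {n k m : ℕ} (π ρ : Equiv.Perm (Fin n)) (F : Fml n k m) :
    rn π (rn ρ F) = rn (π * ρ) F := rfl

theorem rn_one {n k m : ℕ} (F : Fml n k m) : rn (1 : Equiv.Perm (Fin n)) F = F := rfl

/-- renaming as a bijection -/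
def rnE {n k m : ℕ} (π : Equiv.Perm (Fin n)) : Fml n k m ≃ Fml n k m where
  toFun := rn π
  invFun := rn π⁻¹
  left_inv F := by rw [rn_rn, inv_mul_cancel, rn_one]
  right_inv F := by rw [rn_rn, mul_inv_cancel, rn_one]

theorem dist_rn {n k m : ℕ} (π : Equiv.Perm (Fin n)) (F : Fml n k m) :
    Dist (rn π F) ↔ Dist F := by
  constructor
  · intro h c i j hij
    exact h c (by show π (F c i).1 = π (F c j).1; rw [show (F c i).1 = (F c j).1 from hij])
  · intro h c i j hij
    exact h c (π.injective hij)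

theorem sat_rn {n k m : ℕ} (π : Equiv.Perm (Fin n)) (F : Fml n k m) (σ : Fin n → Bool) :
    Sat (rn π F) (σ ∘ π.symm) ↔ Sat F σ := by
  unfold Sat rn
  simp

/-- renaming pairs of a formula and an assignment -/
def rnP {n k m : ℕ} (π : Equiv.Perm (Fin n)) :
    Fml n k m × (Fin n → Bool) ≃ Fml n k m × (Fin n → Bool) :=
  (rnE π).prodCongr (Equiv.arrowCongr π (Equiv.refl Bool))

open Classical in
theorem pf_YSU : T_YSU := by
  intro n k m π f
  constructor
  · refine Finset.sum_equiv (rnE π) ?_ ?_
    · intro F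
      simp only [mem_filter, mem_univ, true_and]
      exact (dist_rn π F).symm
    · intro F _
      rfl
  · refine Finset.sum_equiv (rnP π) ?_ ?_
    · rintro ⟨F, σ⟩
      simp only [mem_filter, mem_univ, true_and]
      exact and_congr (dist_rn π F).symm (sat_rn π F σ).symm
    · rintro ⟨F, σ⟩ _
      rfl

end Pool.Agent.H49.PPZ
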